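import Mathlib
import Pool.Agent.Lib.MP_60829e_nt.ST.AuxNum

/-! # The numerical comparison for the auxiliary polynomial, sharp parameters -/

namespace MP60829e.HS

open MP60829e.ST

variable {k m D N U t a g C0 d T : ℕ} {A C1 : ℝ}

/-- The counting inequality. -/
theorem numS_count {p : ℕ} (hm : m = k + 2) (hD : D = t ^ ((p + 4) * (k + 1)))
    (hN : N = D * t ^ (p + 2)) (ht : 18 ≤ t) : (t + 1) * (2 * N ^ (k + 1)) ≤ (D + 1) ^ m := by
  have h1 : t ^ (2 * (k + 1)) * N ^ (k + 1) = D ^ m := by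
    have h3 : D ^ m = D * D ^ (k + 1) := by
      rw [hm, pow_succ']
    rw [h3, hN, mul_pow, mul_comm, mul_assoc, ← pow_mul, ← pow_add, mul_comm]
    congr 1
    rw [hD]
    congr 1
    ring
  have h2 : (t + 1) * 2 ≤ t ^ (2 * (k + 1)) := by
    have h3 : t ^ 2 ≤ t ^ (2 * (k + 1)) := Nat.pow_le_pow_right (by omega) (by omega)
    nlinarith
  calc (t + 1) * (2 * N ^ (k + 1)) = (t + 1) * 2 * N ^ (k + 1) := by ring
    _ ≤ t ^ (2 * (k + 1)) * N ^ (k + 1) := Nat.mul_le_mul_right _ h2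
    _ = D ^ m := h1
    _ ≤ (D + 1) ^ m := Nat.pow_le_pow_left (by omega) _

theorem numS_D1 (hD : D = t ^ a) (ht : 18 ≤ t) : ((D : ℝ) + 1) ≤ (t : ℝ) ^ (a + 1) := by
  have ht' : (18 : ℝ) ≤ t := by exact_mod_cast ht
  have hD1 : (1 : ℝ) ≤ D := by
    rw [hD]
    push_cast
    exact one_le_pow₀ (by linarith)
  rw [pow_succ]
  have h1 : (t : ℝ) ^ a = D := by rw [hD]; push_cast; rfl
  rw [h1]
  nlinarith

theorem numS_AD (hD : D = t ^ a) (hA : A ≤ t) : A * D ≤ (t : ℝ) ^ (a + 1) := by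
  rw [pow_succ, mul_comm]
  have h1 : (t : ℝ) ^ a = D := by rw [hD]; push_cast; rfl
  rw [h1]
  exact mul_le_mul_of_nonneg_left hA (Nat.cast_nonneg _)

/-- Size of the coefficients. -/
theorem numS_coef (h1 : (D : ℝ) + 1 ≤ (t : ℝ) ^ a) (h2 : A * D ≤ (t : ℝ) ^ a) (hN : N = t * U)
    (hN1 : 1 ≤ N) (hA1 : 1 ≤ A) (ht : 18 ≤ t) (hg : g = a * m + 1 + a * (k + 1)) (x : ℝ)
    (hx : x ^ t ≤ ((D : ℝ) + 1) ^ m * (9 ^ N * (A * D) ^ ((k + 1) * N) + 1)) :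
    x ≤ ((t : ℝ) ^ g) ^ U := by
  have ht' : (18 : ℝ) ≤ t := by exact_mod_cast ht
  have ht1 : (1 : ℝ) ≤ t := by linarith
  have hD0 : (0 : ℝ) ≤ D := Nat.cast_nonneg _
  have h3 : (9 : ℝ) ^ N * (A * D) ^ ((k + 1) * N) + 1 ≤ (t : ℝ) ^ N *
      ((t : ℝ) ^ a) ^ ((k + 1) * N) := by
    have h4 : (A * D) ^ ((k + 1) * N) ≤ ((t : ℝ) ^ a) ^ ((k + 1) * N) :=
      pow_le_pow_left₀ (by positivity) h2 _
    have h5 : (1 : ℝ) ≤ ((t : ℝ) ^ a) ^ ((k + 1) * N) := one_le_pow₀ (one_le_pow₀ ht1)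
    have h6 : (9 : ℝ) ^ N + 1 ≤ (t : ℝ) ^ N := by
      have h7 : (2 : ℝ) ≤ 2 ^ N := by
        calc (2 : ℝ) = 2 ^ 1 := by norm_num
          _ ≤ 2 ^ N := pow_le_pow_right₀ (by norm_num) hN1
      have h8 : (1 : ℝ) ≤ 9 ^ N := one_le_pow₀ (by norm_num)
      calc (9 : ℝ) ^ N + 1 ≤ 2 ^ N * 9 ^ N := by nlinarith
        _ = 18 ^ N := by rw [← mul_pow]; norm_num
        _ ≤ (t : ℝ) ^ N := pow_le_pow_left₀ (by norm_num) ht' _
    calc (9 : ℝ) ^ N * (A * D) ^ ((k + 1) * N) + 1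
        ≤ 9 ^ N * ((t : ℝ) ^ a) ^ ((k + 1) * N) +
            1 * ((t : ℝ) ^ a) ^ ((k + 1) * N) := by
          rw [one_mul]
          exact add_le_add (mul_le_mul_of_nonneg_left h4 (by positivity)) h5
      _ = (9 ^ N + 1) * ((t : ℝ) ^ a) ^ ((k + 1) * N) := by ring
      _ ≤ _ := mul_le_mul_of_nonneg_right h6 (by positivity)
  have h4 : x ^ t ≤ (((t : ℝ) ^ g) ^ U) ^ t := by
    calc x ^ t ≤ ((D : ℝ) + 1) ^ m * (9 ^ N * (A * D) ^ ((k + 1) * N) + 1) := hx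
      _ ≤ ((t : ℝ) ^ a) ^ m * ((t : ℝ) ^ N * ((t : ℝ) ^ a) ^ ((k + 1) * N)) := by
          refine mul_le_mul (pow_le_pow_left₀ (by positivity) h1 _) h3 (by positivity)
            (by positivity)
      _ = (t : ℝ) ^ (a * m + (N + a * ((k + 1) * N))) := by
          rw [← pow_mul, ← pow_mul, ← pow_add, ← pow_add]
      _ ≤ (t : ℝ) ^ (g * N) := by
          refine pow_le_pow_right₀ ht1 ?_
          rw [hg]
          have h5 : a * m ≤ a * m * N := Nat.le_mul_of_pos_right _ hN1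
          calc a * m + (N + a * ((k + 1) * N))
              ≤ a * m * N + (N + a * ((k + 1) * N)) := Nat.add_le_add_right h5 _
            _ = (a * m + 1 + a * (k + 1)) * N := by ring
      _ = (((t : ℝ) ^ g) ^ U) ^ t := by
          rw [← pow_mul, ← pow_mul, hN]
          congr 1
          ring
  exact le_of_pow_le_pow_left₀ (by omega) (by positivity) h4

/-- The contradiction. -/
theorem numS_final {G : ℕ} (h1 : (D : ℝ) + 1 ≤ (t : ℝ) ^ a) (h2 : A * D ≤ (t : ℝ) ^ a)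
    (h2' : C1 * D ≤ (t : ℝ) ^ a) (hD1' : 1 ≤ D) (hU1 : 1 ≤ U)
    (hN : N = t * U) (hA1 : 1 ≤ A) (hC1 : 1 ≤ C1)
    (hG : G = (a * m + g) + (a + 2) + ((a * m + g + 1) + a * 2) * d)
    (ht : Big A C1 C0 G t) (hTU : T ≤ U) (P : ℝ)
    (hP0 : 0 ≤ P) (hP : P ≤ ((D : ℝ) + 1) ^ m * ((t : ℝ) ^ g) ^ U) :
    (P / 9 ^ N * Real.exp (A * U) +
      P * ((A * D) ^ T * (((81 : ℝ) ^ (N - T))⁻¹ * Real.exp (81 * (A * U))))) *
      ((P + 1) * (C1 * D) ^ (T + U)) ^ d < 1 := by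
  have ht' : (18 : ℝ) ≤ t := by exact_mod_cast ht.h18
  have ht1 : (1 : ℝ) ≤ t := by linarith
  have h18 := ht.h18
  have hDr : (0 : ℝ) ≤ D := Nat.cast_nonneg _
  have htU : (2 : ℝ) ≤ (t : ℝ) ^ U := by
    calc (2 : ℝ) ≤ (t : ℝ) ^ 1 := by rw [pow_one]; linarith
      _ ≤ (t : ℝ) ^ U := pow_le_pow_right₀ ht1 hU1
  -- size of P
  have hP1 : P ≤ ((t : ℝ) ^ U) ^ (a * m + g) := by
    calc P ≤ ((D : ℝ) + 1) ^ m * ((t : ℝ) ^ g) ^ U := hP
      _ ≤ ((t : ℝ) ^ a) ^ m * ((t : ℝ) ^ g) ^ U :=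
          mul_le_mul_of_nonneg_right (pow_le_pow_left₀ (by positivity) h1 _) (by positivity)
      _ ≤ (((t : ℝ) ^ a) ^ m) ^ U * ((t : ℝ) ^ g) ^ U := by
          refine mul_le_mul_of_nonneg_right ?_ (by positivity)
          exact le_self_pow₀ (one_le_pow₀ (one_le_pow₀ ht1)) (by omega)
      _ = ((t : ℝ) ^ U) ^ (a * m + g) := by
          rw [← pow_mul, ← pow_mul, ← pow_mul, ← pow_mul, ← pow_add]
          congr 1
          ring
  have hP2 : P + 1 ≤ ((t : ℝ) ^ U) ^ (a * m + g + 1) := by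
    have h3 : (1 : ℝ) ≤ ((t : ℝ) ^ U) ^ (a * m + g) := one_le_pow₀ (one_le_pow₀ ht1)
    calc P + 1 ≤ ((t : ℝ) ^ U) ^ (a * m + g) + ((t : ℝ) ^ U) ^ (a * m + g) := add_le_add hP1 h3
      _ = ((t : ℝ) ^ U) ^ (a * m + g) * 2 := by ring
      _ ≤ ((t : ℝ) ^ U) ^ (a * m + g) * (t : ℝ) ^ U :=
          mul_le_mul_of_nonneg_left htU (by positivity)
      _ = ((t : ℝ) ^ U) ^ (a * m + g + 1) := by rw [pow_succ]
  -- exponentials
  have hE : Real.exp (81 * (A * U)) ≤ (t : ℝ) ^ U := by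
    have h3 : 81 * (A * (U : ℝ)) = (U : ℝ) * (81 * A) := by ring
    rw [h3, Real.exp_nat_mul]
    exact pow_le_pow_left₀ (Real.exp_pos _).le ht.hexp _
  have hE1 : Real.exp (A * U) ≤ (t : ℝ) ^ U := by
    refine le_trans (Real.exp_le_exp.2 ?_) hE
    have : 0 ≤ A * (U : ℝ) := by positivity
    linarith
  have hAT : (A * D) ^ T ≤ ((t : ℝ) ^ U) ^ a := by
    calc (A * D) ^ T ≤ ((t : ℝ) ^ a) ^ T := pow_le_pow_left₀ (by positivity) h2 _
      _ ≤ ((t : ℝ) ^ a) ^ U := pow_le_pow_right₀ (one_le_pow₀ ht1) hTU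
      _ = ((t : ℝ) ^ U) ^ a := by rw [← pow_mul, ← pow_mul, Nat.mul_comm]
  have h81 : ((81 : ℝ) ^ (N - T))⁻¹ ≤ (9 ^ N)⁻¹ := by
    refine inv_anti₀ (by positivity) ?_
    have h3 : (81 : ℝ) ^ (N - T) = 9 ^ (2 * (N - T)) := by
      rw [pow_mul]; norm_num
    rw [h3]
    refine pow_le_pow_right₀ (by norm_num) ?_
    have h4 : 2 * T ≤ N := by
      rw [hN]
      exact Nat.mul_le_mul (by omega) hTU
    omega
  have hF1 : P / 9 ^ N * Real.exp (A * U) +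
      P * ((A * D) ^ T * (((81 : ℝ) ^ (N - T))⁻¹ * Real.exp (81 * (A * U)))) ≤
      (9 ^ N)⁻¹ * ((t : ℝ) ^ U) ^ ((a * m + g) + (a + 2)) := by
    calc P / 9 ^ N * Real.exp (A * U) +
        P * ((A * D) ^ T * (((81 : ℝ) ^ (N - T))⁻¹ * Real.exp (81 * (A * U))))
        ≤ P / 9 ^ N * (t : ℝ) ^ U + P * (((t : ℝ) ^ U) ^ a * ((9 ^ N)⁻¹ * (t : ℝ) ^ U)) := by
          refine add_le_add (mul_le_mul_of_nonneg_left hE1 (by positivity)) ?_
          refine mul_le_mul_of_nonneg_left ?_ hP0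
          refine mul_le_mul hAT ?_ (by positivity) (by positivity)
          exact mul_le_mul h81 hE (Real.exp_pos _).le (by positivity)
      _ = (9 ^ N)⁻¹ * (P * ((t : ℝ) ^ U + ((t : ℝ) ^ U) ^ (a + 1))) := by
          rw [pow_succ, div_eq_mul_inv]
          ring
      _ ≤ (9 ^ N)⁻¹ * (((t : ℝ) ^ U) ^ (a * m + g) * ((t : ℝ) ^ U) ^ (a + 2)) := by
          refine mul_le_mul_of_nonneg_left ?_ (by positivity)
          refine mul_le_mul hP1 ?_ (by positivity) (by positivity)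
          have h3 : (t : ℝ) ^ U ≤ ((t : ℝ) ^ U) ^ (a + 1) :=
            le_self_pow₀ (one_le_pow₀ ht1) (by omega)
          calc (t : ℝ) ^ U + ((t : ℝ) ^ U) ^ (a + 1)
              ≤ ((t : ℝ) ^ U) ^ (a + 1) * 2 := by linarith
            _ ≤ ((t : ℝ) ^ U) ^ (a + 1) * (t : ℝ) ^ U :=
                mul_le_mul_of_nonneg_left htU (by positivity)
            _ = ((t : ℝ) ^ U) ^ (a + 2) := by rw [← pow_succ]
      _ = _ := by rw [← pow_add]
  have hF2 : (P + 1) * (C1 * D) ^ (T + U) ≤ ((t : ℝ) ^ U) ^ ((a * m + g + 1) + a * 2) := by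
    calc (P + 1) * (C1 * D) ^ (T + U)
        ≤ ((t : ℝ) ^ U) ^ (a * m + g + 1) * ((t : ℝ) ^ a) ^ (U * 2) := by
          refine mul_le_mul hP2 ?_ (by positivity) (by positivity)
          calc (C1 * D) ^ (T + U) ≤ ((t : ℝ) ^ a) ^ (T + U) :=
                pow_le_pow_left₀ (by positivity) h2' _
            _ ≤ ((t : ℝ) ^ a) ^ (U * 2) := pow_le_pow_right₀ (one_le_pow₀ ht1) (by omega)
      _ = _ := by
          rw [← pow_mul, ← pow_mul, ← pow_mul, ← pow_add]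
          congr 1
          ring
  have hF1' : 0 ≤ (9 ^ N)⁻¹ * ((t : ℝ) ^ U) ^ ((a * m + g) + (a + 2)) := by positivity
  calc (P / 9 ^ N * Real.exp (A * U) +
      P * ((A * D) ^ T * (((81 : ℝ) ^ (N - T))⁻¹ * Real.exp (81 * (A * U))))) *
      ((P + 1) * (C1 * D) ^ (T + U)) ^ d
      ≤ ((9 ^ N)⁻¹ * ((t : ℝ) ^ U) ^ ((a * m + g) + (a + 2))) *
        (((t : ℝ) ^ U) ^ ((a * m + g + 1) + a * 2)) ^ d :=
        mul_le_mul hF1 (pow_le_pow_left₀ (by positivity) hF2 _) (by positivity) hF1'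
    _ = (9 ^ N)⁻¹ * ((t : ℝ) ^ G) ^ U := by
        rw [hG, mul_assoc]
        congr 1
        rw [← pow_mul, ← pow_mul, ← pow_mul, ← pow_mul, ← pow_add]
        congr 1
        ring
    _ < (9 ^ N)⁻¹ * ((9 : ℝ) ^ t) ^ U := by
        refine mul_lt_mul_of_pos_left ?_ (by positivity)
        exact pow_lt_pow_left₀ ht.hG (by positivity) (by omega)
    _ = 1 := by
        rw [hN, ← pow_mul]
        exact inv_mul_cancel₀ (by positivity)

end MP60829e.HS
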