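import Mathlib
import Pool.Agent.Lib.MP_60829e_nt.HP.RankM
import Pool.Agent.Lib.MP_60829e_nt.HP.CDefsM

/-! # The rank of the group of relations, sharp form -/

open MvPolynomial Module

namespace MP60829e.HS

open MP60829e.ST MP60829e.HP

/-- An adapted basis of a subspace spanned by vectors with coordinates in `F`. -/
theorem basisF {e : ℕ} (F : IntermediateField ℚ ℂ) (S : Set (Fin e → ℂ))
    (hS : ∀ w ∈ S, ∀ i, w i ∈ F) :
    ∃ (J : Finset (Fin e)) (b : {j // j ∈ J} → Fin e → ℂ),
      (∀ j i, b j i ∈ F) ∧ (∀ j, b j ∈ Submodule.span ℂ S) ∧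
      (∀ j j' : {j // j ∈ J}, b j j'.1 = if j = j' then 1 else 0) ∧
      (∀ w ∈ Submodule.span ℂ S, w = ∑ j, w j.1 • b j) ∧
      J.card = finrank ℂ (Submodule.span ℂ S) := by
  classical
  set G : Submodule F (Fin e → F) :=
    Submodule.span F {g | (fun i => (g i : ℂ)) ∈ S} with hG
  obtain ⟨I, -, hI1, hI2⟩ := exists_coord G
  have hy : ∀ j : {j // j ∈ Iᶜ}, ∃ t ∈ G, ∀ i, i ∉ I → (Pi.single j.1 1 : Fin e → F) i = t i :=
    fun j => hI2 _
  choose t htG ht using hy
  have hGU : ∀ g ∈ G, (fun i => (g i : ℂ)) ∈ Submodule.span ℂ S := by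
    intro g hg
    rw [hG] at hg
    induction hg using Submodule.span_induction with
    | mem g hg => exact Submodule.subset_span hg
    | zero =>
      have : (fun i => (((0 : Fin e → F) i : F) : ℂ)) = 0 := by
        funext i
        simp
      rw [this]
      exact Submodule.zero_mem _
    | add x y _ _ hx hy =>
      have : (fun i => (((x + y) i : F) : ℂ)) = (fun i => (x i : ℂ)) + fun i => (y i : ℂ) := by
        funext i
        simp
      rw [this]
      exact Submodule.add_mem _ hx hy
    | smul c x _ hx =>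
      have : (fun i => (((c • x) i : F) : ℂ)) = (c : ℂ) • fun i => (x i : ℂ) := by
        funext i
        simp
      rw [this]
      exact Submodule.smul_mem _ _ hx
  have hdelta : ∀ j j' : {j // j ∈ Iᶜ}, t j j'.1 = if j = j' then 1 else 0 := by
    intro j j'
    rw [← ht j j'.1 (Finset.mem_compl.1 j'.2), Pi.single_apply]
    simp only [Subtype.ext_iff, eq_comm]
  have hrep : ∀ w ∈ Submodule.span ℂ S, w = ∑ j : {j // j ∈ Iᶜ}, w j.1 • fun i => (t j i : ℂ) := by
    intro w hw
    induction hw using Submodule.span_induction with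
    | mem w hw =>
      have hwa := hS w hw
      have hgw : ∃ g : Fin e → F, ∀ i, (g i : ℂ) = w i :=
        ⟨fun i => ⟨w i, hwa i⟩, fun i => rfl⟩
      obtain ⟨g, hg⟩ := hgw
      have hgG : g ∈ G := by
        rw [hG]
        apply Submodule.subset_span
        have : (fun i => (g i : ℂ)) = w := funext hg
        rw [Set.mem_ofPred_eq, this]
        exact hw
      have h1 : g - ∑ j : {j // j ∈ Iᶜ}, g j.1 • t j = 0 := by
        apply hI1
        · exact Submodule.sub_mem _ hgG (Submodule.sum_mem _ fun j _ =>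
            Submodule.smul_mem _ _ (htG j))
        · intro i hi
          rw [Pi.sub_apply, Finset.sum_apply, sub_eq_zero]
          have h2 : ∀ j : {j // j ∈ Iᶜ}, (g j.1 • t j) i =
              if j = ⟨i, Finset.mem_compl.2 hi⟩ then g i else 0 := by
            intro j
            rw [Pi.smul_apply, smul_eq_mul]
            have h3 := hdelta j ⟨i, Finset.mem_compl.2 hi⟩
            simp only at h3
            rw [h3]
            split_ifs with h4
            · rw [mul_one, h4]
            · rw [mul_zero]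
          simp only [h2]
          rw [Finset.sum_ite_eq' Finset.univ, if_pos (Finset.mem_univ _)]
      have h2 := sub_eq_zero.1 h1
      funext i
      have h3 := congrArg (fun z : F => (z : ℂ)) (congrFun h2 i)
      simp only [Finset.sum_apply, Pi.smul_apply, smul_eq_mul] at h3 ⊢
      rw [← hg i, h3]
      push_cast
      refine Finset.sum_congr rfl fun j _ => ?_
      rw [hg]
    | zero => simp
    | add x y _ _ hx hy =>
      conv_lhs => rw [hx, hy]
      rw [← Finset.sum_add_distrib]
      refine Finset.sum_congr rfl fun j _ => ?_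
      rw [Pi.add_apply, add_smul]
    | smul c x _ hx =>
      conv_lhs => rw [hx]
      rw [Finset.smul_sum]
      refine Finset.sum_congr rfl fun j _ => ?_
      rw [Pi.smul_apply, smul_smul, smul_eq_mul]
  refine ⟨Iᶜ, fun j i => (t j i : ℂ), fun j i => (t j i).2, fun j => hGU _ (htG j),
    fun j j' => ?_, hrep, ?_⟩
  · simp only [hdelta]
    split_ifs <;> simp
  · -- a basis
    have hli : LinearIndependent ℂ fun j : {j // j ∈ Iᶜ} => (fun i => (t j i : ℂ) : Fin e → ℂ) := by
      rw [Fintype.linearIndependent_iff]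
      intro c hc j
      have h1 := congrFun hc j.1
      rw [Finset.sum_apply, Pi.zero_apply] at h1
      have h2 : ∀ j' : {j // j ∈ Iᶜ}, (c j' • fun i => (t j' i : ℂ)) j.1 =
          if j' = j then c j else 0 := by
        intro j'
        rw [Pi.smul_apply, smul_eq_mul, hdelta]
        split_ifs with h
        · rw [h]; simp
        · simp
      simp only [h2] at h1
      rwa [Finset.sum_ite_eq' Finset.univ, if_pos (Finset.mem_univ _)] at h1
    have hspan : Submodule.span ℂ (Set.range fun j : {j // j ∈ Iᶜ} =>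
        (fun i => (t j i : ℂ) : Fin e → ℂ)) = Submodule.span ℂ S := by
      apply le_antisymm
      · rw [Submodule.span_le]
        rintro _ ⟨j, rfl⟩
        exact hGU _ (htG j)
      · intro w hw
        rw [hrep w hw]
        exact Submodule.sum_mem _ fun j _ => Submodule.smul_mem _ _
          (Submodule.subset_span ⟨j, rfl⟩)
    rw [← hspan, finrank_span_eq_card hli, Fintype.card_coe]

/-- The induction hypothesis: the bound `C e'` for all `e' < e`. -/
def RkHypC (C : ℕ → ℕ) (e : ℕ) : Prop := ∀ e' < e, ∀ a : Fin e' → ℂ, LinearIndependent Qa a →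
  ∀ V : Submodule Qa (Fin e' → ℂ), (∀ v ∈ V, ∀ i, v i ∈ Lsp) →
    (∀ v ∈ V, ∑ i, a i * v i = 0) → Module.rank Qa V ≤ ((C e' : ℕ) : Cardinal)

/-- The space of the coefficients of the vectors of `span v` which lie in an algebraic subspace. -/
theorem coeffC {C : ℕ → ℕ} {e N : ℕ} (IH : RkHypC C e) (a : Fin e → ℂ) (ha : LinearIndependent Qa a)
    (v : Fin N → Fin e → ℂ) (hv : LinearIndependent Qa v) (hvL : ∀ j i, v j i ∈ Lsp)
    (hav : ∀ j, ∑ i, a i * v j i = 0) (J : Finset (Fin e)) (hJ : J.card < e)
    (b : {j // j ∈ J} → Fin e → ℂ) (hb : ∀ j i, IsAlgebraic ℚ (b j i))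
    (hdelta : ∀ j j' : {j // j ∈ J}, b j j'.1 = if j = j' then 1 else 0)
    (Z : Submodule Qa (Fin N → Qa))
    (hZ : ∀ c ∈ Z, ∀ i, (∑ j, (c j : ℂ) * v j i) =
      ∑ k : {j // j ∈ J}, (∑ j, (c j : ℂ) * v j k.1) * b k i) :
    finrank Qa Z ≤ C J.card := by
  classical
  set g := J.card with hg
  have eq : {j // j ∈ J} ≃ Fin g := Fintype.equivFinOfCardEq (by rw [Fintype.card_coe])
  -- the new form
  set a' : Fin g → ℂ := fun k => ∑ i, a i * b (eq.symm k) i with ha'
  have hbQ : ∀ j i, ∃ z : Qa, (z : ℂ) = b j i := fun j i =>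
    ⟨⟨b j i, mem_algebraicClosure_iff.2 (hb j i)⟩, rfl⟩
  choose bq hbq using hbQ
  have ha'i : LinearIndependent Qa a' := by
    rw [Fintype.linearIndependent_iff]
    intro c hc
    have h1 : ∑ i, (∑ k, c k * bq (eq.symm k) i) • a i = 0 := by
      rw [← hc]
      have e1 : ∀ i, (∑ k, c k * bq (eq.symm k) i) • a i =
          ∑ k, (c k : ℂ) * (a i * b (eq.symm k) i) := by
        intro i
        rw [Algebra.smul_def, map_sum, Finset.sum_mul]
        refine Finset.sum_congr rfl fun k _ => ?_
        rw [map_mul]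
        have e2 : (algebraMap Qa ℂ) (bq (eq.symm k) i) = b (eq.symm k) i := hbq _ _
        have e3 : (algebraMap Qa ℂ) (c k) = (c k : ℂ) := rfl
        rw [e2, e3]
        ring
      simp only [e1]
      rw [Finset.sum_comm]
      refine Finset.sum_congr rfl fun k _ => ?_
      rw [ha', Algebra.smul_def]
      have e3 : (algebraMap Qa ℂ) (c k) = (c k : ℂ) := rfl
      rw [e3, Finset.mul_sum]
    have h2 := Fintype.linearIndependent_iff.1 ha _ h1
    intro k
    have h3 := h2 (eq.symm k).1
    have h4 : ∀ k', c k' * bq (eq.symm k') (eq.symm k).1 = if k' = k then c k else 0 := by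
      intro k'
      have h5 := hdelta (eq.symm k') (eq.symm k)
      rw [← hbq] at h5
      split_ifs with h6
      · rw [h6] at h5 ⊢
        rw [if_pos rfl] at h5
        have h7 : bq (eq.symm k) (eq.symm k).1 = 1 := by
          apply Subtype.ext
          exact h5
        rw [h7, mul_one]
      · rw [if_neg (fun h => h6 (eq.symm.injective h))] at h5
        have h7 : bq (eq.symm k') (eq.symm k).1 = 0 := by
          apply Subtype.ext
          exact h5
        rw [h7, mul_zero]
    simp only [h4] at h3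
    rwa [Finset.sum_ite_eq' Finset.univ, if_pos (Finset.mem_univ _)] at h3
  -- the projection
  let P : (Fin N → Qa) →ₗ[Qa] (Fin g → ℂ) :=
    { toFun := fun c k => ∑ j, (c j : ℂ) * v j (eq.symm k).1
      map_add' := by
        intro c d
        funext k
        simp only [Pi.add_apply]
        rw [← Finset.sum_add_distrib]
        refine Finset.sum_congr rfl fun j _ => ?_
        push_cast
        ring
      map_smul' := by
        intro r c
        funext k
        simp only [Pi.smul_apply, RingHom.id_apply, smul_eq_mul]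
        rw [Algebra.smul_def, Finset.mul_sum]
        refine Finset.sum_congr rfl fun j _ => ?_
        have e3 : (algebraMap Qa ℂ) r = (r : ℂ) := rfl
        rw [e3]
        push_cast
        ring }
  have hP : ∀ c k, P c k = ∑ j, (c j : ℂ) * v j (eq.symm k).1 := fun c k => rfl
  have hinj : ∀ c ∈ Z, P c = 0 → c = 0 := by
    intro c hc h0
    have h1 : ∀ i, (∑ j, (c j : ℂ) * v j i) = 0 := by
      intro i
      rw [hZ c hc i]
      refine Finset.sum_eq_zero fun k _ => ?_
      have h2 := congrFun h0 (eq k)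
      rw [hP, Equiv.symm_apply_apply, Pi.zero_apply] at h2
      rw [h2, zero_mul]
    have h2 : ∑ j, c j • v j = 0 := by
      funext i
      rw [Finset.sum_apply, Pi.zero_apply, ← h1 i]
      refine Finset.sum_congr rfl fun j _ => ?_
      rw [Pi.smul_apply, Algebra.smul_def]
      rfl
    funext j
    exact Fintype.linearIndependent_iff.1 hv c h2 j
  have hrk := IH g (by rw [hg]; exact hJ) a' ha'i (Z.map P) (by
    rintro _ ⟨c, -, rfl⟩ k
    rw [hP]
    refine Submodule.sum_mem _ fun j _ => ?_
    have := Lsp.smul_mem (c j) (hvL j (eq.symm k).1)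
    rwa [Algebra.smul_def] at this) (by
    rintro _ ⟨c, hc, rfl⟩
    have h1 : ∑ i, a i * ∑ j, (c j : ℂ) * v j i = 0 := by
      have : ∀ i, a i * ∑ j, (c j : ℂ) * v j i = ∑ j, (c j : ℂ) * (a i * v j i) := by
        intro i
        rw [Finset.mul_sum]
        refine Finset.sum_congr rfl fun j _ => ?_
        ring
      simp only [this]
      rw [Finset.sum_comm]
      refine Finset.sum_eq_zero fun j _ => ?_
      rw [← Finset.mul_sum, hav, mul_zero]
    have h2 : ∀ i, (∑ j, (c j : ℂ) * v j i) =
        ∑ k : Fin g, P c k * b (eq.symm k) i := by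
      intro i
      rw [hZ c hc i, ← eq.symm.sum_comp]
      exact Finset.sum_congr rfl fun k _ => rfl
    simp only [h2] at h1
    rw [← h1]
    have h3 : ∀ i, a i * ∑ k, P c k * b (eq.symm k) i =
        ∑ k, P c k * (a i * b (eq.symm k) i) := by
      intro i
      rw [Finset.mul_sum]
      refine Finset.sum_congr rfl fun j _ => ?_
      ring
    simp only [h3]
    rw [Finset.sum_comm]
    refine Finset.sum_congr rfl fun k _ => ?_
    rw [ha', ← Finset.mul_sum, mul_comm])
  have hle : finrank Qa Z ≤ finrank Qa (Z.map P) := by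
    let Q : Z →ₗ[Qa] Z.map P := P.submoduleMap Z
    apply LinearMap.finrank_le_finrank_of_injective (f := Q)
    rw [← LinearMap.ker_eq_bot, LinearMap.ker_eq_bot']
    intro z hz
    apply Subtype.ext
    apply hinj z.1 z.2
    exact congrArg Subtype.val hz
  refine hle.trans ?_
  rw [← finrank_eq_rank] at hrk
  exact_mod_cast hrk

theorem fM_int_mem {e K : ℕ} {om : Fin (K + 1) → ℂ} {F : IntermediateField ℚ ℂ}
    (homF : ∀ l, om l ∈ F) (r : Fin e × Fin (K + 1) → ℤ) (i : Fin e) :
    fM om (fun t => (r t : ℂ)) i ∈ F := by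
  rw [fM_apply]
  exact F.sum_mem fun l _ => F.mul_mem (homF l) (intCast_mem F _)

theorem fM_int_zero {e K : ℕ} {om : Fin (K + 1) → ℂ} (homi : LinearIndependent ℚ om)
    (r : Fin e × Fin (K + 1) → ℤ) (i : Fin e) (h : fM om (fun t => (r t : ℂ)) i = 0)
    (l : Fin (K + 1)) : r (i, l) = 0 := by
  rw [fM_apply] at h
  have h1 : ∑ l, (r (i, l) : ℚ) • om l = 0 := by
    rw [← h]
    refine Finset.sum_congr rfl fun l _ => ?_
    rw [Rat.smul_def]
    push_cast
    ring
  have h2 := Fintype.linearIndependent_iff.1 homi _ h1 l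
  exact_mod_cast h2

/-- **(R1)** `perp Λ` is rational and `fM om` is injective on rational vectors. -/
theorem finrank_perp_le {e K : ℕ} (om : Fin (K + 1) → ℂ) (homi : LinearIndependent ℚ om)
    (F : IntermediateField ℚ ℂ) (homF : ∀ l, om l ∈ F)
    (Λ : AddSubgroup (Fin e × Fin (K + 1) → ℤ)) :
    finrank ℂ (perp Λ) ≤ (K + 1) * finrank ℂ ((perp Λ).map (fM (e := e) om)) := by
  classical
  set S : Set (Fin e → ℂ) := {w | ∃ r : Fin e × Fin (K + 1) → ℤ, (fun i => (r i : ℂ)) ∈ perp Λ ∧
    w = fM om (fun i => (r i : ℂ))} with hS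
  have hU : (perp Λ).map (fM (e := e) om) = Submodule.span ℂ S := by
    conv_lhs => rw [rk_perp_span Λ]
    rw [Submodule.map_span]
    congr 1
    ext w
    constructor
    · rintro ⟨_, ⟨r, hr, rfl⟩, rfl⟩
      exact ⟨r, hr, rfl⟩
    · rintro ⟨r, hr, rfl⟩
      exact ⟨_, ⟨r, hr, rfl⟩, rfl⟩
  obtain ⟨J, b, -, -, -, hrep, hJ⟩ := basisF F S (by
    rintro _ ⟨r, -, rfl⟩ i
    exact fM_int_mem homF r i)
  rw [← hU] at hrep hJ
  -- the projection
  let R : perp Λ →ₗ[ℂ] ({j // j ∈ J} × Fin (K + 1) → ℂ) :=
    (LinearMap.pi fun p : {j // j ∈ J} × Fin (K + 1) =>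
      (LinearMap.proj (p.1.1, p.2) : (Fin e × Fin (K + 1) → ℂ) →ₗ[ℂ] ℂ)).domRestrict (perp Λ)
  have hR : ∀ (s : perp Λ) p, R s p = s.1 (p.1.1, p.2) := fun s p => rfl
  -- the group of the kernel
  set Λ' : AddSubgroup (Fin e × Fin (K + 1) → ℤ) :=
    Λ ⊔ AddSubgroup.closure {z | ∃ p : {j // j ∈ J} × Fin (K + 1),
      z = Pi.single (p.1.1, p.2) (1 : ℤ)} with hΛ'
  have hmono : perp Λ' ≤ perp Λ := fun v hv l hl => hv l (AddSubgroup.mem_sup_left hl)
  have hbot : perp Λ' = ⊥ := by
    rw [rk_perp_span Λ', Submodule.span_eq_bot]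
    rintro _ ⟨r, hr, rfl⟩
    have h1 := hrep _ ⟨_, hmono hr, rfl⟩
    have h2 : ∀ (j : {j // j ∈ J}) l, (r (j.1, l) : ℂ) = 0 := by
      intro j l
      have h3 := hr (Pi.single (j.1, l) (1 : ℤ)) (AddSubgroup.mem_sup_right
        (AddSubgroup.subset_closure ⟨(j, l), rfl⟩))
      rw [Finset.sum_eq_single (j.1, l)] at h3
      · simpa using h3
      · intro p _ hp
        rw [Pi.single_eq_of_ne hp]
        simp
      · intro h
        exact absurd (Finset.mem_univ _) h
    have h3 : ∀ j : {j // j ∈ J}, fM om (fun i => (r i : ℂ)) j.1 = 0 := by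
      intro j
      rw [fM_apply]
      refine Finset.sum_eq_zero fun l _ => ?_
      rw [h2 j l, mul_zero]
    have h4 : fM om (fun i => (r i : ℂ)) = 0 := by
      rw [h1]
      refine Finset.sum_eq_zero fun j _ => ?_
      rw [h3, zero_smul]
    funext ⟨i, l⟩
    have h5 := fM_int_zero homi r i (congrFun h4 i) l
    rw [h5]
    simp
  have hinj : Function.Injective R := by
    rw [← LinearMap.ker_eq_bot, LinearMap.ker_eq_bot']
    intro s hs
    have h1 : s.1 ∈ perp Λ' := by
      intro z hz
      rw [hΛ'] at hz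
      obtain ⟨y, hy, w, hw, rfl⟩ := AddSubgroup.mem_sup.1 hz
      clear hz
      have h2 : ∑ i, (w i : ℂ) * s.1 i = 0 := by
        induction hw using AddSubgroup.closure_induction with
        | mem w hw =>
          obtain ⟨p, rfl⟩ := hw
          rw [Finset.sum_eq_single (p.1.1, p.2)]
          · have := congrFun hs p
            rw [hR, Pi.zero_apply] at this
            rw [this, mul_zero]
          · intro q _ hq
            rw [Pi.single_eq_of_ne hq]
            simp
          · intro h
            exact absurd (Finset.mem_univ _) h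
        | zero => simp
        | add x y _ _ hx hy =>
          simp only [Pi.add_apply, Int.cast_add, add_mul, Finset.sum_add_distrib]
          rw [hx, hy, add_zero]
        | neg x _ hx =>
          simp only [Pi.neg_apply, Int.cast_neg, neg_mul, Finset.sum_neg_distrib]
          rw [hx, neg_zero]
      have h3 := s.2 y hy
      simp only [Pi.add_apply, Int.cast_add, add_mul, Finset.sum_add_distrib]
      rw [h3, h2, add_zero]
    rw [hbot, Submodule.mem_bot] at h1
    exact Subtype.ext h1
  have h1 := LinearMap.finrank_le_finrank_of_injective hinj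
  rw [finrank_fintype_fun_eq_card, Fintype.card_prod, Fintype.card_coe, Fintype.card_fin, hJ,
    mul_comm] at h1
  exact h1

/-- **(R2)** The rank of the group of relations, sharp form. -/
theorem rank_sharp {C : ℕ → ℕ} {e K N : ℕ} (om : Fin (K + 1) → ℂ)
    (hom : ∀ l, IsAlgebraic ℚ (om l)) (homi : LinearIndependent ℚ om)
    (F : IntermediateField ℚ ℂ) (homF : ∀ l, om l ∈ F)
    (hspan : ∀ x ∈ F, ∃ r : Fin (K + 1) → ℚ, x = ∑ l, (r l : ℂ) * om l)
    (a : Fin e → ℂ) (ha : LinearIndependent Qa a)
    (v : Fin N → Fin e → ℂ) (hv : LinearIndependent Qa v) (hvL : ∀ j i, v j i ∈ Lsp)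
    (hav : ∀ j, ∑ i, a i * v j i = 0)
    (η : Fin N × Fin (K + 1) → Fin e × Fin (K + 1) → ℂ) (hη : ∀ j l, fM om (η (j, l)) = om l • v j)
    (Λ : AddSubgroup (Fin e × Fin (K + 1) → ℤ)) (IH : RkHypC C e)
    (hlt : finrank ℂ ((perp Λ).map (fM (e := e) om)) < e) :
    finrank ℚ (RelQ Λ η) ≤ (K + 1) * (C (finrank ℂ ((perp Λ).map (fM (e := e) om))) +
      (e - finrank ℂ ((perp Λ).map (fM (e := e) om)))) := by
  classical
  -- the algebraic subspace
  set S : Set (Fin e → ℂ) := {w | ∃ r : Fin e × Fin (K + 1) → ℤ, (fun i => (r i : ℂ)) ∈ perp Λ ∧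
    w = fM om (fun i => (r i : ℂ))} with hS
  have hU : (perp Λ).map (fM (e := e) om) = Submodule.span ℂ S := by
    conv_lhs => rw [rk_perp_span Λ]
    rw [Submodule.map_span]
    congr 1
    ext w
    constructor
    · rintro ⟨_, ⟨r, hr, rfl⟩, rfl⟩
      exact ⟨r, hr, rfl⟩
    · rintro ⟨r, hr, rfl⟩
      exact ⟨_, ⟨r, hr, rfl⟩, rfl⟩
  obtain ⟨J, b, hbF, hbS, hdelta, hrep, hJ⟩ := basisF F S (by
    rintro _ ⟨r, -, rfl⟩ i
    exact fM_int_mem homF r i)
  have hFalg : ∀ x ∈ F, IsAlgebraic ℚ x := by
    intro x hx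
    obtain ⟨r, rfl⟩ := hspan x hx
    refine Subalgebra.sum_mem (integralClosure ℚ ℂ) (fun l _ => ?_) |>.isAlgebraic
    exact ((isAlgebraic_ratCast _ (r l)).mul (hom l)).isIntegral
  have hb : ∀ j i, IsAlgebraic ℚ (b j i) := fun j i => hFalg _ (hbF j i)
  rw [← hU] at hrep hJ hbS
  set U := (perp Λ).map (fM (e := e) om) with hUdef
  -- the map
  set ζ : (Fin N × Fin (K + 1) → ℚ) →ₗ[ℚ] (Fin e → ℂ) :=
    Fintype.linearCombination ℚ fun p => fM om (η p) with hζ
  have hζs : ∀ s, ζ s = fM om (∑ p, (s p : ℂ) • η p) := by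
    intro s
    rw [hζ, Fintype.linearCombination_apply, map_sum]
    refine Finset.sum_congr rfl fun p _ => ?_
    rw [map_smul]
    funext i
    rw [Pi.smul_apply, Pi.smul_apply, Rat.smul_def, smul_eq_mul]
  have homQ : ∃ o : Fin (K + 1) → Qa, ∀ l, (o l : ℂ) = om l :=
    ⟨fun l => ⟨om l, mem_algebraicClosure_iff.2 (hom l)⟩, fun l => rfl⟩
  obtain ⟨o, ho⟩ := homQ
  have hoi : LinearIndependent ℚ o := by
    have h1 : (Qa.val.toLinearMap ∘ o) = om := funext ho
    apply LinearIndependent.of_comp Qa.val.toLinearMap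
    rw [h1]
    exact homi
  set Z : Submodule Qa (Fin N → Qa) := Submodule.comap (Fintype.linearCombination Qa v)
    (U.restrictScalars Qa) with hZ
  set Zs : Submodule ℚ (Fin N × Fin (K + 1) → ℚ) := Submodule.comap ζ
    (U.restrictScalars ℚ) with hZs
  have hZmem : ∀ c : Fin N → Qa, c ∈ Z ↔ (∑ j, (c j : ℂ) • v j) ∈ U := by
    intro c
    rw [hZ, Submodule.mem_comap, Fintype.linearCombination_apply]
    exact Iff.rfl
  have hZle : finrank Qa Z ≤ C J.card := by
    apply coeffC IH a ha v hv hvL hav J (by rw [hJ]; exact hlt) b hb hdelta Z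
    intro c hc i
    have h1 := congrFun (hrep _ ((hZmem c).1 hc)) i
    simp only [Finset.sum_apply, Pi.smul_apply, smul_eq_mul] at h1
    exact h1
  have hZsle : finrank ℚ Zs ≤ (K + 1) * finrank Qa Z := by
    apply rk_ratl o hoi Z Zs
    intro s hs
    rw [hZmem]
    have h1 : ζ s ∈ U := hs
    have h2 : ζ s = ∑ j, ((∑ l, s (j, l) • o l : Qa) : ℂ) • v j := by
      rw [hζ, Fintype.linearCombination_apply, Fintype.sum_prod_type]
      refine Finset.sum_congr rfl fun j _ => ?_
      have h3 : ((∑ l, s (j, l) • o l : Qa) : ℂ) = ∑ l, s (j, l) • om l := by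
        have h4 := map_sum Qa.val.toLinearMap (fun l => s (j, l) • o l) Finset.univ
        have h5 : ∀ z : Qa, Qa.val.toLinearMap z = (z : ℂ) := fun z => rfl
        rw [h5] at h4
        rw [h4]
        refine Finset.sum_congr rfl fun l _ => ?_
        rw [map_smul, h5, ho]
      rw [h3, Finset.sum_smul]
      refine Finset.sum_congr rfl fun l _ => ?_
      rw [hη, smul_assoc]
    rw [← h2]
    exact h1
  -- the map modulo the subspace
  set π : (Fin e → ℂ) →ₗ[ℚ] ((Fin e → ℂ) ⧸ U) := (U.mkQ).restrictScalars ℚ with hπ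
  have hπ0 : ∀ w, π w = 0 ↔ w ∈ U := fun w => Submodule.Quotient.mk_eq_zero U
  set R := RelQ Λ η with hR
  set M : R →ₗ[ℚ] ((Fin e → ℂ) ⧸ U) := (π ∘ₗ ζ).domRestrict R with hM
  have hMapp : ∀ s : R, M s = π (ζ s.1) := fun s => rfl
  have h1 := LinearMap.finrank_range_add_finrank_ker M
  have hker : finrank ℚ (LinearMap.ker M) ≤ finrank ℚ Zs := by
    have hmem : ∀ s : LinearMap.ker M, (s.1.1) ∈ Zs := by
      intro s
      have h2 : M s.1 = 0 := s.2
      rw [hMapp, hπ0] at h2
      exact h2
    let L : LinearMap.ker M →ₗ[ℚ] Zs :=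
      LinearMap.codRestrict _ (R.subtype ∘ₗ (LinearMap.ker M).subtype) hmem
    apply LinearMap.finrank_le_finrank_of_injective (f := L)
    intro x y hxy
    apply Subtype.ext
    apply Subtype.ext
    have h3 : (L x).1 = (L y).1 := by rw [hxy]
    exact h3
  have hrange : finrank ℚ (LinearMap.range M) ≤ (K + 1) * (e - J.card) := by
    set bs : {i // i ∉ J} × Fin (K + 1) → ((Fin e → ℂ) ⧸ U) := fun t =>
      π ((2 * Real.pi * Complex.I : ℂ) • om t.2 • Pi.single t.1.1 (1 : ℂ)) with hbs
    have hle : LinearMap.range M ≤ Submodule.span ℚ (Set.range bs) := by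
      have h2 : R.map (π ∘ₗ ζ) ≤ Submodule.span ℚ (Set.range bs) := by
        rw [hR]
        unfold RelQ
        rw [Submodule.map_span, Submodule.span_le]
        rintro _ ⟨s, ⟨s', hs', w, hw, n, hn⟩, rfl⟩
        have h3 : (∑ i, (s' i : ℂ) • η i) = w + (2 * Real.pi * Complex.I : ℂ) •
            fun i => (n i : ℂ) := by
          funext i
          have := hn i
          simp only [Pi.zero_apply, sub_zero] at this
          rw [this]
          rfl
        have h4 : ζ s = fM om (∑ i, (s' i : ℂ) • η i) := by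
          rw [hζs]
          congr 1
          refine Finset.sum_congr rfl fun i _ => ?_
          rw [hs' i]
          push_cast
          rfl
        -- reduction modulo the subspace
        obtain ⟨x, hx⟩ : ∃ x : Fin e → ℂ, x = fM om (fun i => (n i : ℂ)) := ⟨_, rfl⟩
        have hxF : ∀ i, x i ∈ F := fun i => by
          rw [hx]
          exact fM_int_mem homF n i
        obtain ⟨y, hy⟩ : ∃ y : Fin e → ℂ, y = x - ∑ j, x j.1 • b j := ⟨_, rfl⟩
        have hyF : ∀ i, y i ∈ F := fun i => by
          rw [hy, Pi.sub_apply, Finset.sum_apply]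
          refine F.sub_mem (hxF i) (F.sum_mem fun j _ => ?_)
          rw [Pi.smul_apply, smul_eq_mul]
          exact F.mul_mem (hxF _) (hbF j i)
        have hyJ : ∀ i ∈ J, y i = 0 := by
          intro i hi
          rw [hy, Pi.sub_apply, Finset.sum_apply, Finset.sum_eq_single ⟨i, hi⟩]
          · rw [Pi.smul_apply, smul_eq_mul, hdelta ⟨i, hi⟩ ⟨i, hi⟩, if_pos rfl, mul_one, sub_self]
          · intro j _ hj
            rw [Pi.smul_apply, smul_eq_mul, hdelta j ⟨i, hi⟩, if_neg hj, mul_zero]
          · intro h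
            exact absurd (Finset.mem_univ _) h
        have hxy : x - y ∈ U := by
          rw [hy, sub_sub_cancel]
          exact Submodule.sum_mem _ fun j _ => Submodule.smul_mem _ _ (hbS j)
        choose r hr using fun i => hspan _ (hyF i)
        have hysum : y = ∑ t : {i // i ∉ J} × Fin (K + 1),
            (r t.1.1 t.2 : ℂ) • om t.2 • Pi.single t.1.1 (1 : ℂ) := by
          funext i
          rw [Finset.sum_apply, Fintype.sum_prod_type]
          by_cases hi : i ∈ J
          · rw [hyJ i hi]
            symm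
            refine Finset.sum_eq_zero fun i' _ => Finset.sum_eq_zero fun l _ => ?_
            have hne : i ≠ i'.1 := fun h => i'.2 (h ▸ hi)
            rw [Pi.smul_apply, Pi.smul_apply, Pi.single_eq_of_ne hne, smul_zero, smul_zero]
          · rw [Finset.sum_eq_single (⟨i, hi⟩ : {i // i ∉ J})]
            · conv_lhs => rw [hr i]
              refine Finset.sum_congr rfl fun l _ => ?_
              rw [Pi.smul_apply, Pi.smul_apply, Pi.single_eq_same, smul_eq_mul, smul_eq_mul,
                mul_one]
            · intro i' _ hi'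
              refine Finset.sum_eq_zero fun l _ => ?_
              have hne : i ≠ i'.1 := fun h => hi' (Subtype.ext h.symm)
              rw [Pi.smul_apply, Pi.smul_apply, Pi.single_eq_of_ne hne, smul_zero, smul_zero]
            · intro h
              exact absurd (Finset.mem_univ _) h
        have h5 : π (ζ s) = ∑ t : {i // i ∉ J} × Fin (K + 1), (r t.1.1 t.2 : ℚ) • bs t := by
          rw [h4, h3, map_add, map_add, (hπ0 (fM om w)).2 ⟨w, hw, rfl⟩, zero_add, map_smul, ← hx]
          have h6 : (2 * Real.pi * Complex.I : ℂ) • x =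
              (2 * Real.pi * Complex.I : ℂ) • (x - y) + (2 * Real.pi * Complex.I : ℂ) • y := by
            rw [← smul_add, sub_add_cancel]
          rw [h6, map_add, (hπ0 _).2 (U.smul_mem _ hxy), zero_add]
          conv_lhs => rw [hysum]
          rw [Finset.smul_sum, map_sum]
          refine Finset.sum_congr rfl fun t _ => ?_
          have h8 : (2 * Real.pi * Complex.I : ℂ) • (r t.1.1 t.2 : ℂ) • om t.2 •
              (Pi.single t.1.1 (1 : ℂ) : Fin e → ℂ) = (r t.1.1 t.2 : ℚ) •
              ((2 * Real.pi * Complex.I : ℂ) • om t.2 • Pi.single t.1.1 (1 : ℂ)) := by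
            funext i
            simp only [Pi.smul_apply, smul_eq_mul, Rat.smul_def]
            ring
          rw [h8, map_smul]
        rw [SetLike.mem_coe, LinearMap.comp_apply, h5]
        exact Submodule.sum_mem _ fun t _ => Submodule.smul_mem _ _
          (Submodule.subset_span ⟨t, rfl⟩)
      rintro _ ⟨s, rfl⟩
      exact h2 ⟨s.1, s.2, rfl⟩
    have : FiniteDimensional ℚ (Submodule.span ℚ (Set.range bs)) :=
      FiniteDimensional.span_of_finite ℚ (Set.finite_range bs)
    refine (Submodule.finrank_mono hle).trans ((finrank_range_le_card bs).trans (le_of_eq ?_))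
    rw [Fintype.card_prod, Fintype.card_fin, Fintype.card_subtype_compl, Fintype.card_fin,
      Fintype.card_coe, mul_comm]
  rw [hJ] at hZle hrange
  have h2 : (K + 1) * finrank Qa Z ≤ (K + 1) * C (finrank ℂ U) := Nat.mul_le_mul_left _ hZle
  rw [mul_add]
  omega

/-- **(R3)** If `perp Λ` is killed by `fM om` there are no relations. -/
theorem rank_zero {e K N : ℕ} (om : Fin (K + 1) → ℂ)
    (hom : ∀ l, IsAlgebraic ℚ (om l)) (homi : LinearIndependent ℚ om)
    (a : Fin e → ℂ) (ha : LinearIndependent Qa a)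
    (v : Fin N → Fin e → ℂ) (hv : LinearIndependent Qa v)
    (hav : ∀ j, ∑ i, a i * v j i = 0)
    (η : Fin N × Fin (K + 1) → Fin e × Fin (K + 1) → ℂ) (hη : ∀ j l, fM om (η (j, l)) = om l • v j)
    (Λ : AddSubgroup (Fin e × Fin (K + 1) → ℤ))
    (h0 : finrank ℂ ((perp Λ).map (fM (e := e) om)) = 0) :
    finrank ℚ (RelQ Λ η) = 0 := by
  classical
  have hbot : ∀ w ∈ perp Λ, fM (e := e) om w = 0 := by
    intro w hw
    have h1 : (perp Λ).map (fM (e := e) om) = ⊥ := Submodule.finrank_eq_zero.1 h0
    have h2 : fM (e := e) om w ∈ (perp Λ).map (fM (e := e) om) := ⟨w, hw, rfl⟩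
    rw [h1] at h2
    exact (Submodule.mem_bot ℂ).1 h2
  have hrel : RelQ Λ η = ⊥ := by
    unfold RelQ
    rw [Submodule.span_eq_bot]
    rintro s ⟨s', hs', w, hw, n, hn⟩
    have h3 : (∑ i, (s' i : ℂ) • η i) = w + (2 * Real.pi * Complex.I : ℂ) •
        fun i => (n i : ℂ) := by
      funext i
      have := hn i
      simp only [Pi.zero_apply, sub_zero] at this
      rw [this]
      rfl
    have h4 : fM om (∑ i, (s' i : ℂ) • η i) = ∑ j, (∑ l, (s' (j, l) : ℂ) * om l) • v j := by
      rw [map_sum, Fintype.sum_prod_type]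
      refine Finset.sum_congr rfl fun j _ => ?_
      rw [Finset.sum_smul]
      refine Finset.sum_congr rfl fun l _ => ?_
      rw [map_smul, hη, smul_smul]
    have h5 : ∑ j, (∑ l, (s' (j, l) : ℂ) * om l) • v j = (2 * Real.pi * Complex.I : ℂ) •
        fM om (fun i => (n i : ℂ)) := by
      rw [← h4, h3, map_add, hbot w hw, zero_add, map_smul]
    -- the algebraic vector is orthogonal to `a`
    have h6 : ∑ i, a i * fM om (fun i => (n i : ℂ)) i = 0 := by
      have h7 : (2 * Real.pi * Complex.I : ℂ) * ∑ i, a i * fM om (fun i => (n i : ℂ)) i = 0 := by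
        have h8 : ∀ i, (2 * Real.pi * Complex.I : ℂ) * fM om (fun i => (n i : ℂ)) i =
            ∑ j, (∑ l, (s' (j, l) : ℂ) * om l) * v j i := by
          intro i
          have := congrFun h5 i
          rw [Finset.sum_apply] at this
          simp only [Pi.smul_apply, smul_eq_mul] at this
          exact this.symm
        calc (2 * Real.pi * Complex.I : ℂ) * ∑ i, a i * fM om (fun i => (n i : ℂ)) i
            = ∑ i, a i * ((2 * Real.pi * Complex.I : ℂ) * fM om (fun i => (n i : ℂ)) i) := by
              rw [Finset.mul_sum]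
              exact Finset.sum_congr rfl fun i _ => by ring
          _ = ∑ i, ∑ j, (∑ l, (s' (j, l) : ℂ) * om l) * (a i * v j i) := by
              refine Finset.sum_congr rfl fun i _ => ?_
              rw [h8, Finset.mul_sum]
              exact Finset.sum_congr rfl fun j _ => by ring
          _ = ∑ j, (∑ l, (s' (j, l) : ℂ) * om l) * ∑ i, a i * v j i := by
              rw [Finset.sum_comm]
              exact Finset.sum_congr rfl fun j _ => by rw [Finset.mul_sum]
          _ = 0 := by
              refine Finset.sum_eq_zero fun j _ => ?_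
              rw [hav, mul_zero]
      exact (mul_eq_zero.1 h7).resolve_left Complex.two_pi_I_ne_zero
    have h7 : ∀ i, fM om (fun i => (n i : ℂ)) i = 0 := by
      have h8 : ∀ i, IsAlgebraic ℚ (fM om (fun i => (n i : ℂ)) i) := by
        intro i
        rw [fM_apply]
        refine Subalgebra.sum_mem (integralClosure ℚ ℂ) (fun l _ => ?_) |>.isAlgebraic
        exact ((hom l).mul (isAlgebraic_intCast _)).isIntegral
      intro i
      have h9 := Fintype.linearIndependent_iff.1 ha (fun i =>
        (⟨fM om (fun i => (n i : ℂ)) i, mem_algebraicClosure_iff.2 (h8 i)⟩ : Qa)) (by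
          rw [← h6]
          refine Finset.sum_congr rfl fun i _ => ?_
          rw [mul_comm]
          rfl) i
      exact congrArg Subtype.val h9
    have h8 : ∑ j, (∑ l, (s' (j, l) : ℂ) * om l) • v j = 0 := by
      rw [h5]
      have : fM om (fun i => (n i : ℂ)) = 0 := funext h7
      rw [this, smul_zero]
    have h9 : ∀ j, IsAlgebraic ℚ (∑ l, (s' (j, l) : ℂ) * om l) := by
      intro j
      refine Subalgebra.sum_mem (integralClosure ℚ ℂ) (fun l _ => ?_) |>.isAlgebraic
      exact ((isAlgebraic_intCast _).mul (hom l)).isIntegral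
    have h10 := Fintype.linearIndependent_iff.1 hv (fun j =>
      (⟨∑ l, (s' (j, l) : ℂ) * om l, mem_algebraicClosure_iff.2 (h9 j)⟩ : Qa)) (by
        rw [← h8]
        exact Finset.sum_congr rfl fun j _ => rfl)
    funext ⟨j, l⟩
    have h11 : ∑ l, s (j, l) • om l = 0 := by
      have h12 := congrArg Subtype.val (h10 j)
      have h13 : ∑ l, (s' (j, l) : ℂ) * om l = 0 := h12
      rw [← h13]
      refine Finset.sum_congr rfl fun l _ => ?_
      rw [hs', Rat.smul_def]
      push_cast
      rfl
    exact Fintype.linearIndependent_iff.1 homi _ h11 l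
  rw [hrel]
  exact finrank_bot ℚ _

end MP60829e.HS
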