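import Mathlib
import Pool.Agent.Lib.MP_60829e_nt.ST.Zero
import Pool.Agent.Lib.MP_60829e_nt.HP.CWM
import Pool.Agent.Lib.MP_60829e_nt.HP.CorM
import Pool.Agent.Lib.MP_60829e_nt.HS.AuxS
import Pool.Agent.Lib.MP_60829e_nt.HS.RankS

/-! # The core of the hyperplane theorem, sharp form -/

open MvPolynomial Module

namespace MP60829e.HS

open MP60829e.ST MP60829e.HP

/-- numerical end of case A -/
private theorem cs_caseA {m j D T : ℕ} (hj : 1 ≤ j) (hjm : j ≤ m) (hT : m * D < T)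
    (h : T ^ j ≤ j.factorial * D ^ j) : False := by
  have h2 : (m * D) ^ j < T ^ j := Nat.pow_lt_pow_left hT (by omega)
  have h3 : j.factorial ≤ m ^ j := (Nat.factorial_le_pow j).trans (Nat.pow_le_pow_left hjm j)
  have h4 : j.factorial * D ^ j ≤ (m * D) ^ j := by
    rw [mul_pow]
    exact Nat.mul_le_mul_right _ h3
  omega

/-- numerical end of case B -/
private theorem cs_caseB {m w q t p0 c T D X k : ℕ} (ht : m.factorial < t)
    (hwm : w + q ≤ m) (hp : 4 * (k * q) < p0) (hD : D = t ^ ((p0 + 4) * k))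
    (hT : T = D * t ^ p0) (hc : k * q + 1 ≤ c + w) (hX : (t ^ (p0 + 1)) ^ c ≤ X)
    (h : X * T ^ w ≤ (w + q).factorial * D ^ (w + q)) : False := by
  have htpos : 0 < t := by omega
  have ht1 : 1 < t := by
    have := Nat.factorial_pos m
    omega
  have hDpos : 0 < D := by
    rw [hD]
    exact pow_pos htpos _
  have h1 : t ^ ((p0 + 1) * c + p0 * w) * D ^ w ≤ m.factorial * D ^ q * D ^ w := by
    calc t ^ ((p0 + 1) * c + p0 * w) * D ^ w = (t ^ (p0 + 1)) ^ c * T ^ w := by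
          rw [hT, mul_pow, pow_add, pow_mul, pow_mul]
          ring
      _ ≤ X * T ^ w := Nat.mul_le_mul_right _ hX
      _ ≤ (w + q).factorial * D ^ (w + q) := h
      _ ≤ m.factorial * D ^ (w + q) := Nat.mul_le_mul_right _ (Nat.factorial_le hwm)
      _ = m.factorial * D ^ q * D ^ w := by rw [mul_assoc, ← pow_add, add_comm q w]
  have h2 : t ^ ((p0 + 1) * c + p0 * w) ≤ m.factorial * D ^ q :=
    Nat.le_of_mul_le_mul_right h1 (pow_pos hDpos _)
  have h3 : m.factorial * D ^ q < t ^ ((p0 + 4) * (k * q) + 1) := by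
    have e1 : D ^ q = t ^ ((p0 + 4) * (k * q)) := by
      rw [hD, ← pow_mul, mul_assoc]
    rw [e1, pow_succ, mul_comm]
    exact Nat.mul_lt_mul_of_pos_left ht (pow_pos htpos _)
  have h4 : (p0 + 1) * c + p0 * w < (p0 + 4) * (k * q) + 1 :=
    (Nat.pow_lt_pow_iff_right ht1).1 (h2.trans_lt h3)
  have h5 : p0 * (k * q + 1) ≤ p0 * (c + w) := Nat.mul_le_mul_left _ hc
  have e1 : p0 * (k * q + 1) = p0 * (k * q) + p0 := by ring
  have e2 : p0 * (c + w) = p0 * c + p0 * w := by ring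
  have e3 : (p0 + 1) * c + p0 * w = p0 * c + p0 * w + c := by ring
  have e4 : (p0 + 4) * (k * q) = p0 * (k * q) + 4 * (k * q) := by ring
  rw [e1, e2] at h5
  rw [e3, e4] at h4
  omega

/-- The exponent in case B, general case. -/
private theorem cs_exp {K e N g m dU κ w : ℕ} (hm : m = e * (K + 1)) (hg0 : 1 ≤ g) (hg : g < e)
    (hN : e * (e - 1) + 1 ≤ N) (hdU : dU ≤ (K + 1) * g) (hw : w + (e - g) + dU = m)
    (hκ : κ ≤ (K + 1) * (g * (g - 1) + (e - g))) :
    (m - 1) * (e - g) + 1 ≤ (N * (K + 1) - κ) + w := by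
  obtain ⟨g', rfl⟩ : ∃ g', g = g' + 1 := ⟨g - 1, by omega⟩
  obtain ⟨d, rfl⟩ : ∃ d, e = g' + 1 + (d + 1) := ⟨e - (g' + 2), by omega⟩
  have h1 : g' + 1 + (d + 1) - (g' + 1) = d + 1 := by omega
  have h2 : g' + 1 + (d + 1) - 1 = g' + 1 + d := by omega
  have h3 : g' + 1 - 1 = g' := by omega
  rw [h2] at hN
  rw [h1, h3] at hκ
  rw [h1] at hw ⊢
  have h4 : ((g' + 1 + (d + 1)) * (g' + 1 + d) + 1) * (K + 1) ≤ N * (K + 1) :=
    Nat.mul_le_mul_right _ hN
  have h5 : ((g' + 1 + (d + 1)) * (g' + 1 + d) + 1) * (K + 1) + (K + 1) * (d + 1) =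
      (K + 1) * ((g' + 1) * g' + (d + 1)) + m * (d + 1) + (K + 1) * (d + 1) * g' + (K + 1) := by
    rw [hm]
    ring
  have h6 : m = (K + 1) * (g' + 1) + (K + 1) * (d + 1) := by
    rw [hm]
    ring
  have hm1 : 1 ≤ m := by
    rw [hm]
    exact Nat.mul_pos (by omega) (by omega)
  have h7 : (m - 1) * (d + 1) + (d + 1) = m * (d + 1) := by
    obtain ⟨m', rfl⟩ : ∃ m', m = m' + 1 := ⟨m - 1, by omega⟩
    rw [Nat.add_sub_cancel]
    ring
  generalize hA : (K + 1) * ((g' + 1) * g' + (d + 1)) = A at *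
  generalize hB : N * (K + 1) = B at *
  generalize hC : (K + 1) * (d + 1) = C at *
  generalize hD : m * (d + 1) = D at *
  generalize hE : (m - 1) * (d + 1) = E at *
  generalize hF : ((g' + 1 + (d + 1)) * (g' + 1 + d) + 1) * (K + 1) = F at *
  generalize hG : C * g' = G at *
  generalize hH : (K + 1) * (g' + 1) = H at *
  omega

/-- The exponent in case B, case `g = 0`. -/
private theorem cs_exp0 {K e N m w : ℕ} (hm : m = e * (K + 1)) (he : 1 ≤ e)
    (hN : e * (e - 1) + 1 ≤ N) (hw : w + e = m) :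
    (m - 1) * e + 1 ≤ N * (K + 1) + w := by
  obtain ⟨d, rfl⟩ : ∃ d, e = d + 1 := ⟨e - 1, by omega⟩
  have h1 : d + 1 - 1 = d := by omega
  rw [h1] at hN
  have h4 : ((d + 1) * d + 1) * (K + 1) ≤ N * (K + 1) := Nat.mul_le_mul_right _ hN
  have h5 : ((d + 1) * d + 1) * (K + 1) + m = m * (d + 1) + (K + 1) := by
    rw [hm]
    ring
  have hm1 : 1 ≤ m := by omega
  have h7 : (m - 1) * (d + 1) + (d + 1) = m * (d + 1) := by
    obtain ⟨m', rfl⟩ : ∃ m', m = m' + 1 := ⟨m - 1, by omega⟩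
    rw [Nat.add_sub_cancel]
    ring
  generalize hB : N * (K + 1) = B at *
  generalize hD : m * (d + 1) = D at *
  generalize hE : (m - 1) * (d + 1) = E at *
  generalize hF : ((d + 1) * d + 1) * (K + 1) = F at *
  omega

/-- **The core, sharp form.** -/
theorem coreS {e K N : ℕ} (he : 2 ≤ e)
    (om : Fin (K + 1) → ℂ) (hom : ∀ l, IsAlgebraic ℚ (om l)) (homi : LinearIndependent ℚ om)
    (F : IntermediateField ℚ ℂ) (homF : ∀ l, om l ∈ F)
    (hspan : ∀ x ∈ F, ∃ r : Fin (K + 1) → ℚ, x = ∑ l, (r l : ℂ) * om l)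
    (a : Fin e → ℂ) (ha : LinearIndependent Qa a)
    (v : Fin N → Fin e → ℂ) (hv : LinearIndependent Qa v) (hvL : ∀ j i, v j i ∈ Lsp)
    (hav : ∀ j, ∑ i, a i * v j i = 0)
    (η : Fin N × Fin (K + 1) → Fin e × Fin (K + 1) → ℂ) (hη : ∀ j l, fM om (η (j, l)) = om l • v j)
    (hexp : ∀ p t, IsAlgebraic ℚ (Complex.exp (η p t)))
    (IH : RkHypC (fun e => e * (e - 1)) e) : N ≤ e * (e - 1) := by
  classical
  by_contra hN
  have hN' : e * (e - 1) + 1 ≤ N := by omega
  have h0 : om 0 ≠ 0 := homi.ne_zero 0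
  have hfs : Function.Surjective (fM (e := e) om) := fM_surjective om h0
  have hf : ∀ (r : Fin e × Fin (K + 1) → ℤ) (i : Fin e),
      IsAlgebraic ℚ (fM om (fun t => (r t : ℂ)) i) := by
    intro r i
    rw [fM_apply]
    refine Subalgebra.sum_mem (integralClosure ℚ ℂ) (fun l _ => ?_) |>.isAlgebraic
    exact ((hom l).mul (isAlgebraic_intCast _)).isIntegral
  obtain ⟨m, hm⟩ : ∃ m : ℕ, m = e * (K + 1) := ⟨_, rfl⟩
  have hcard : Fintype.card (Fin e × Fin (K + 1)) = m := by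
    rw [Fintype.card_prod, Fintype.card_fin, Fintype.card_fin, hm]
  have hem : e ≤ m := by
    rw [hm]
    exact Nat.le_mul_of_pos_right e (by omega)
  obtain ⟨n, hn⟩ : ∃ n : ℕ, n + e = m := ⟨m - e, by omega⟩
  obtain ⟨u, hu⟩ : ∃ u : ℕ, u + 1 = e := ⟨e - 1, by omega⟩
  obtain ⟨q, hq, hqspan⟩ := cm_ker (fM (e := e) om) hfs (by rw [hcard]; exact hn) hf
  have ha0 : a ≠ 0 := by
    intro h0
    have := ha.ne_zero (⟨0, by omega⟩ : Fin e)
    exact this (congrFun h0 _)
  obtain ⟨v0, hv0⟩ := cm_hyp hu (fM (e := e) om) hfs a ha0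
  have hy : ∀ j, η j ∈ Submodule.span ℂ (Set.range v0 ∪ Set.range q) := by
    intro p
    rw [Submodule.span_union, hqspan]
    apply hv0
    have h1 := hη p.1 p.2
    rw [show (p.1, p.2) = p from rfl] at h1
    rw [h1]
    have h2 : ∀ i, a i * (om p.2 • v p.1) i = om p.2 * (a i * v p.1 i) := by
      intro i
      rw [Pi.smul_apply, smul_eq_mul]
      ring
    simp only [h2]
    rw [← Finset.mul_sum, hav, mul_zero]
  -- the parameters
  have hnu : n + u = m - 1 := by omega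
  have hm1 : 2 ≤ m := by omega
  obtain ⟨p0, hp0⟩ : ∃ p0 : ℕ, p0 = 4 * ((m - 1) * e) + 1 := ⟨_, rfl⟩
  obtain ⟨t0, ht0⟩ := exists_auxS (n := n) (u := u) (by rw [hcard]; omega) (by omega) q hq v0 η hy
    hexp m p0
  obtain ⟨t, ht⟩ : ∃ t : ℕ, t = t0 + m.factorial + m + 1 := ⟨_, rfl⟩
  have htpos : 0 < t := by omega
  obtain ⟨D, hD⟩ : ∃ D : ℕ, D = t ^ ((p0 + 4) * (m - 1)) := ⟨_, rfl⟩
  obtain ⟨S1, hS1⟩ : ∃ S1 : ℕ, S1 = t ^ (p0 + 1) := ⟨_, rfl⟩
  obtain ⟨T, hT⟩ : ∃ T : ℕ, T = D * t ^ p0 := ⟨_, rfl⟩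
  have hS1pos : 1 ≤ S1 := by
    rw [hS1]
    exact pow_pos htpos _
  have hD1 : 1 ≤ D := by
    rw [hD]
    exact pow_pos htpos _
  have hDT : m * D < T := by
    rw [hT, mul_comm m D]
    apply Nat.mul_lt_mul_of_pos_left _ hD1
    exact lt_of_lt_of_le (by omega : m < t) (Nat.le_self_pow (by omega) t)
  obtain ⟨P, hP, hPB, hPv⟩ := ht0 t (by omega)
  rw [hnu, ← hD] at hPB hPv
  rw [← hS1, ← hT] at hPv
  -- the finite set
  obtain ⟨S, hS⟩ : ∃ S : Finset (Fin e × Fin (K + 1) → ℂ), S =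
      Finset.univ.image (fun s : Fin N × Fin (K + 1) → Fin S1 =>
        ∑ i, ((s i : ℕ) : ℂ) • η i) := ⟨_, rfl⟩
  have hmemS : ∀ y, y ∈ S ↔ ∃ s : Fin N × Fin (K + 1) → ℕ, (∀ i, s i < S1) ∧
      y = ∑ i, (s i : ℂ) • η i := by
    intro y
    rw [hS, Finset.mem_image]
    constructor
    · rintro ⟨s, -, rfl⟩
      exact ⟨fun i => s i, fun i => (s i).2, rfl⟩
    · rintro ⟨s, hs, rfl⟩
      exact ⟨fun i => ⟨s i, hs i⟩, Finset.mem_univ _, rfl⟩
  have h0S : (0 : Fin e × Fin (K + 1) → ℂ) ∈ S := by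
    rw [hmemS]
    refine ⟨fun _ => 0, fun _ => hS1pos, ?_⟩
    simp
  have hT1 : 1 ≤ T := by omega
  obtain ⟨Λ, hΛ, hest⟩ := zero_estimate (D := D) (T := T) hT1 P hP hPB S h0S
    (LinearMap.ker (fM (e := e) om)) (by
    intro y hyS ws hws hl
    rw [hcard] at hl
    choose s hs hsy using fun i => (hmemS (y i)).1 (hyS i)
    have hsum : ∑ i, y i = ∑ j, ((∑ i, s i j : ℕ) : ℂ) • η j := by
      simp_rw [hsy]
      rw [Finset.sum_comm]
      refine Finset.sum_congr rfl fun j _ => ?_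
      rw [← Finset.sum_smul]
      push_cast
      rfl
    rw [hsum]
    refine hPv (fun j => ∑ i, s i j) (fun j => ?_) ws ?_ hl
    · calc ∑ i, s i j ≤ ∑ _i : Fin (Fintype.card (Fin e × Fin (K + 1))), S1 :=
            Finset.sum_le_sum fun i _ => (hs i j).le
        _ = m * S1 := by
            rw [Finset.sum_const, Finset.card_univ, Fintype.card_fin, hcard, smul_eq_mul]
    · intro w hw
      rw [hqspan]
      exact hws w hw)
  rw [hcard] at hest
  -- dimensions
  have htop : finrank ℂ (Fin e × Fin (K + 1) → ℂ) = m := by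
    rw [finrank_fintype_fun_eq_card, hcard]
  have hW2 : finrank ℂ (LinearMap.ker (fM (e := e) om)) + e = m := by
    have h10 := (fM (e := e) om).finrank_range_add_finrank_ker
    rw [LinearMap.range_eq_top.2 hfs, finrank_top, finrank_fintype_fun_eq_card,
      finrank_fintype_fun_eq_card, Fintype.card_fin, hcard] at h10
    omega
  have hUlt : finrank ℂ (perp Λ) < m := by
    rw [← htop]
    exact Submodule.finrank_lt hΛ
  obtain ⟨g, hg⟩ : ∃ g : ℕ, g = finrank ℂ ((perp Λ).map (fM (e := e) om)) := ⟨_, rfl⟩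
  have hdim : g + finrank ℂ (LinearMap.ker (fM (e := e) om) ⊓ perp Λ :
      Submodule ℂ (Fin e × Fin (K + 1) → ℂ)) = finrank ℂ (perp Λ) := by
    have h11 := ((fM (e := e) om).domRestrict (perp Λ)).finrank_range_add_finrank_ker
    rw [LinearMap.range_domRestrict, ← hg] at h11
    rw [← h11]
    congr 1
    rw [LinearMap.ker_domRestrict, inf_comm, ← Submodule.map_comap_subtype]
    exact Submodule.finrank_map_subtype_eq _ _
  have hge : g ≤ e := by
    have := Submodule.finrank_le ((perp Λ).map (fM (e := e) om))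
    rwa [finrank_fintype_fun_eq_card, Fintype.card_fin, ← hg] at this
  have hinfle : finrank ℂ (LinearMap.ker (fM (e := e) om) ⊓ perp Λ :
      Submodule ℂ (Fin e × Fin (K + 1) → ℂ)) ≤ finrank ℂ (LinearMap.ker (fM (e := e) om)) :=
    Submodule.finrank_mono inf_le_left
  have hperp := finrank_perp_le om homi F homF Λ
  rw [← hg] at hperp
  rcases Nat.lt_or_ge g e with hlt | hge'
  · -- the rank of the relations
    obtain ⟨κ, hκr, hκ⟩ : ∃ κ : ℕ, finrank ℚ (RelQ Λ η) ≤ κ ∧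
        (m - 1) * (e - g) + 1 ≤ (N * (K + 1) - κ) +
          (finrank ℂ (LinearMap.ker (fM (e := e) om)) -
            finrank ℂ (LinearMap.ker (fM (e := e) om) ⊓ perp Λ :
              Submodule ℂ (Fin e × Fin (K + 1) → ℂ))) := by
      rcases Nat.eq_zero_or_pos g with hg0 | hg1
      · refine ⟨0, ?_, ?_⟩
        · exact (rank_zero om hom homi a ha v hv hav η hη Λ (by rw [← hg]; exact hg0)).le
        · rw [hg0] at hperp hdim ⊢
          rw [Nat.sub_zero, Nat.sub_zero]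
          rw [mul_zero] at hperp
          exact cs_exp0 hm (by omega) hN' (by omega)
      · have hrank := rank_sharp om hom homi F homF hspan a ha v hv hvL hav η hη Λ IH
          (by rw [← hg]; exact hlt)
        rw [← hg] at hrank
        exact ⟨_, hrank, cs_exp hm hg1 hlt hN' hperp (by omega) le_rfl⟩
    obtain ⟨S', hS'1, hS'2, hS'3⟩ := core_count Λ η _ hκr S1 hS1pos
    have h1 := hest S' (fun y hy' => (hmemS y).2 (hS'2 y hy')) hS'3
    rw [Fintype.card_prod, Fintype.card_fin, Fintype.card_fin] at hS'1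
    have h4 : m - finrank ℂ (perp Λ) = finrank ℂ (LinearMap.ker (fM (e := e) om)) -
        finrank ℂ (LinearMap.ker (fM (e := e) om) ⊓ perp Λ :
          Submodule ℂ (Fin e × Fin (K + 1) → ℂ)) + (e - g) := by omega
    rw [h4] at h1
    have h5 : (m - 1) * (e - g) ≤ (m - 1) * e := Nat.mul_le_mul_left _ (Nat.sub_le e g)
    rw [hS1] at hS'1
    exact cs_caseB (m := m) (by omega) (by omega) (by omega) hD hT hκ hS'1 h1
  · have hg2 : g = e := le_antisymm hge hge'
    have h1 := hest {0} (Finset.singleton_subset_iff.2 h0S) (by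
      intro y hy' z hz hyz
      rw [Finset.mem_singleton] at hy' hz
      exact absurd (hy'.trans hz.symm) hyz)
    rw [Finset.card_singleton, one_mul] at h1
    have h2 : finrank ℂ (LinearMap.ker (fM (e := e) om)) -
        finrank ℂ (LinearMap.ker (fM (e := e) om) ⊓ perp Λ :
          Submodule ℂ (Fin e × Fin (K + 1) → ℂ)) = m - finrank ℂ (perp Λ) := by omega
    rw [h2] at h1
    exact cs_caseA (by omega) (by omega) hDT h1

end MP60829e.HS
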