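import Mathlib
import Pool.Agent.Lib.MP_60829e_nt.ST.StrField
import Pool.Agent.Lib.MP_60829e_nt.HP.CWM

/-! # Number fields and the points `η` -/

open Module

namespace MP60829e.HS

open MP60829e.ST MP60829e.HP

/-- PROOF. `K = ℚ(A)` is a number field of some degree `k + 1`; take a `ℚ`-basis and multiply it by a
common denominator of its structure constants. -/
theorem numfieldF (A : Finset ℂ) (hA : ∀ a ∈ A, IsAlgebraic ℚ a) :
    ∃ (k : ℕ) (om : Fin (k + 1) → ℂ) (mult : Fin (k + 1) → Fin (k + 1) → Fin (k + 1) → ℤ)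
      (F : IntermediateField ℚ ℂ),
      (∀ i, IsAlgebraic ℚ (om i)) ∧ LinearIndependent ℚ om ∧
      (∀ a b, om a * om b = ∑ i, (mult a b i : ℂ) * om i) ∧ (∀ l, om l ∈ F) ∧ (∀ a ∈ A, a ∈ F) ∧
      ∀ a ∈ F, ∃ r : Fin (k + 1) → ℚ, a = ∑ i, (r i : ℂ) * om i := by
  classical
  set K : IntermediateField ℚ ℂ := IntermediateField.adjoin ℚ (A : Set ℂ) with hK
  have hfin : FiniteDimensional ℚ K := by
    rw [hK]
    exact IntermediateField.finiteDimensional_adjoin fun x hx => (hA x hx).isIntegral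
  obtain ⟨k, hk⟩ : ∃ k, finrank ℚ K = k + 1 := by
    have : 0 < finrank ℚ K := finrank_pos
    exact ⟨finrank ℚ K - 1, by omega⟩
  let b : Basis (Fin (k + 1)) ℚ K := (finBasisOfFinrankEq ℚ K hk)
  obtain ⟨⟨d, hd⟩, hint⟩ := IsLocalization.exist_integer_multiples (nonZeroDivisors ℤ)
    (Finset.univ : Finset (Fin (k + 1) × Fin (k + 1) × Fin (k + 1)))
    (fun p => b.repr (b p.1 * b p.2.1) p.2.2)
  have hd0 : d ≠ 0 := nonZeroDivisors.ne_zero hd
  have hint' : ∀ p q i, ∃ m : ℤ, (m : ℚ) = d * b.repr (b p * b q) i := by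
    intro p q i
    obtain ⟨m, hm⟩ := hint (p, q, i) (Finset.mem_univ _)
    refine ⟨m, ?_⟩
    have h2 : (algebraMap ℤ ℚ) m = (d : ℤ) • b.repr (b p * b q) i := hm
    rw [zsmul_eq_mul] at h2
    exact h2
  choose mult hmult using hint'
  have hdC : (d : ℂ) ≠ 0 := by exact_mod_cast hd0
  have hrepr : ∀ x : K, (x : ℂ) = ∑ i, ((b.repr x i : ℚ) : ℂ) * ((b i : K) : ℂ) := by
    intro x
    have h1 := congrArg K.val (b.sum_repr x)
    rw [map_sum] at h1
    have h2 : K.val x = (x : ℂ) := rfl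
    rw [← h2, ← h1]
    refine Finset.sum_congr rfl fun i _ => ?_
    have h3 : K.val (b.repr x i • b i) = (b.repr x i : ℚ) • ((b i : K) : ℂ) := rfl
    rw [h3, Rat.smul_def]
  refine ⟨k, fun i => (d : ℂ) * (b i : ℂ), mult, K, ?_, ?_, ?_, ?_, ?_, ?_⟩
  · intro i
    have h1 : IsAlgebraic ℚ ((b i : K) : ℂ) := by
      have : IsAlgebraic ℚ (b i) := Algebra.IsAlgebraic.isAlgebraic _
      exact this.algebraMap
    exact (isAlgebraic_intCast d).mul h1
  · have h1 : LinearIndependent ℚ fun i => ((b i : K) : ℂ) :=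
      b.linearIndependent.map' K.val.toLinearMap (LinearMap.ker_eq_bot.2 K.val.injective)
    have hdQ : (d : ℚ) ≠ 0 := by exact_mod_cast hd0
    have h2 := h1.units_smul (fun _ : Fin (k + 1) => Units.mk0 (d : ℚ) hdQ)
    have h3 : (fun i => (d : ℂ) * (b i : ℂ)) =
        (fun _ : Fin (k + 1) => Units.mk0 (d : ℚ) hdQ) • fun i => ((b i : K) : ℂ) := by
      funext i
      rw [Pi.smul_apply', Units.smul_def, Units.val_mk0, Rat.smul_def]
      push_cast
      rfl
    rw [h3]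
    exact h2
  · intro p q
    have h2 := hrepr (b p * b q)
    have h3 : ((b p * b q : K) : ℂ) = (b p : ℂ) * (b q : ℂ) := rfl
    rw [h3] at h2
    have h4 : ∀ i, (mult p q i : ℂ) = d * ((b.repr (b p * b q) i : ℚ) : ℂ) := by
      intro i
      have := hmult p q i
      exact_mod_cast congrArg (fun x : ℚ => (x : ℂ)) this
    calc (d : ℂ) * (b p : ℂ) * ((d : ℂ) * (b q : ℂ)) = d * d * ((b p : ℂ) * (b q : ℂ)) := by ring
      _ = ∑ i, (mult p q i : ℂ) * ((d : ℂ) * (b i : ℂ)) := by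
          rw [h2, Finset.mul_sum]
          refine Finset.sum_congr rfl fun i _ => ?_
          rw [h4 i]
          ring
  · intro l
    exact K.mul_mem (intCast_mem K d) (b l).2
  · intro a ha
    rw [hK]
    exact IntermediateField.subset_adjoin ℚ _ ha
  · intro a haK
    refine ⟨fun i => b.repr ⟨a, haK⟩ i / d, ?_⟩
    have h2 := hrepr ⟨a, haK⟩
    have h3 : ((⟨a, haK⟩ : K) : ℂ) = a := rfl
    rw [h3] at h2
    conv_lhs => rw [h2]
    refine Finset.sum_congr rfl fun i _ => ?_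
    push_cast
    field_simp

/-- The points `η` for a vector of linear forms in logarithms. -/
theorem exists_etaF {e N : ℕ} (v : Fin N → Fin e → ℂ) (hvL : ∀ j i, v j i ∈ Lsp) :
    ∃ (K : ℕ) (om : Fin (K + 1) → ℂ) (F : IntermediateField ℚ ℂ)
      (η : Fin N × Fin (K + 1) → Fin e × Fin (K + 1) → ℂ),
      (∀ l, IsAlgebraic ℚ (om l)) ∧ LinearIndependent ℚ om ∧ (∀ l, om l ∈ F) ∧
      (∀ a ∈ F, ∃ r : Fin (K + 1) → ℚ, a = ∑ i, (r i : ℂ) * om i) ∧
      (∀ p t, IsAlgebraic ℚ (Complex.exp (η p t))) ∧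
      ∀ j l, fM om (η (j, l)) = om l • v j := by
  classical
  have hA : ∀ p : Fin N × Fin e, ∃ A : Finset ℂ, (∀ a ∈ A, IsAlgebraic ℚ a) ∧
      ∀ (k : ℕ) (om : Fin (k + 1) → ℂ),
      (∀ a ∈ A, ∃ r : Fin (k + 1) → ℚ, a = ∑ i, (r i : ℂ) * om i) →
      ∃ lam : Fin (k + 1) → ℂ, (∀ i, IsAlgebraic ℚ (Complex.exp (lam i))) ∧
        v p.1 p.2 = ∑ i, om i * lam i := fun p => mem_log_span (v p.1 p.2) (hvL p.1 p.2)
  choose A hAalg hAlam using hA
  obtain ⟨K, om, mult, F, hom, hind, hmul, homF, hAF, hspan⟩ := numfieldF (Finset.univ.biUnion A) (by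
    intro a ha
    rw [Finset.mem_biUnion] at ha
    obtain ⟨p, -, h⟩ := ha
    exact hAalg p a h)
  have hlam : ∀ p : Fin N × Fin e, ∃ lam : Fin (K + 1) → ℂ,
      (∀ i, IsAlgebraic ℚ (Complex.exp (lam i))) ∧
        v p.1 p.2 = ∑ i, om i * lam i := fun p => hAlam p K om fun a ha => hspan a (hAF a (by
      rw [Finset.mem_biUnion]
      exact ⟨p, Finset.mem_univ p, ha⟩))
  choose lam hlexp hlz using hlam
  have hprod : ∀ (l : Fin (K + 1)) (c : Fin (K + 1) → ℂ),
      ∑ i', om i' * ∑ i, (mult l i i' : ℂ) * c i = om l * ∑ i, om i * c i := by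
    intro l c
    calc ∑ i', om i' * ∑ i, (mult l i i' : ℂ) * c i
        = ∑ i', ∑ i, om i' * ((mult l i i' : ℂ) * c i) :=
          Finset.sum_congr rfl fun i' _ => by rw [Finset.mul_sum]
      _ = ∑ i, ∑ i', om i' * ((mult l i i' : ℂ) * c i) := Finset.sum_comm
      _ = ∑ i, (om l * om i) * c i := by
          refine Finset.sum_congr rfl fun i _ => ?_
          rw [hmul l i, Finset.sum_mul]
          exact Finset.sum_congr rfl fun i' _ => by ring
      _ = om l * ∑ i, om i * c i := by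
          rw [Finset.mul_sum]
          exact Finset.sum_congr rfl fun i _ => by ring
  have hexp : ∀ (l i' : Fin (K + 1)) (c : Fin (K + 1) → ℂ),
      (∀ i, IsAlgebraic ℚ (Complex.exp (c i))) →
      IsAlgebraic ℚ (Complex.exp (∑ i, (mult l i i' : ℂ) * c i)) := by
    intro l i' c hc
    have h1 : (∑ i, (mult l i i' : ℂ) * c i) ∈ SE.Lg := by
      apply Submodule.sum_mem
      intro i _
      have h2 : (mult l i i' : ℂ) * c i = (mult l i i' : ℚ) • c i := by
        rw [Rat.smul_def]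
        push_cast
        rfl
      rw [h2]
      exact SE.Lg.smul_mem _ (hc i)
    exact h1
  refine ⟨K, om, F, fun p t => ∑ i, (mult p.2 i t.2 : ℂ) * lam (p.1, t.1) i, hom, hind, homF, hspan,
    fun p t => hexp p.2 t.2 _ (hlexp (p.1, t.1)), fun j l => ?_⟩
  funext i
  rw [fM_apply, Pi.smul_apply, smul_eq_mul]
  have h1 := hlz (j, i)
  simp only at h1
  rw [h1]
  exact hprod l (lam (j, i))

end MP60829e.HS
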