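import Mathlib
import Pool.Agent.Lib.MP_60829e_nt.HS.FieldS
import Pool.Agent.Lib.MP_60829e_nt.HS.CoreS

/-! # The hyperplane theorem, sharp constant -/

open Module

namespace MP60829e.HS

open MP60829e.ST MP60829e.HP

/-- The sharp hyperplane theorem, with the rank as a cardinal; induction on `e`.
`N = e (e - 1) + 1` independent vectors would contradict `coreS` (`e ≥ 2`); for `e ≤ 1` the space
is zero. -/
theorem hps_rank {e : ℕ} : ∀ a : Fin e → ℂ, LinearIndependent Qa a →
    ∀ V : Submodule Qa (Fin e → ℂ), (∀ v ∈ V, ∀ i, v i ∈ Lsp) →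
      (∀ v ∈ V, ∑ i, a i * v i = 0) → Module.rank Qa V ≤ ((e * (e - 1) : ℕ) : Cardinal) := by
  induction e using Nat.strong_induction_on with
  | _ e IH =>
  intro a ha V hV hs
  by_contra hlt
  have h1 : ((e * (e - 1) + 1 : ℕ) : Cardinal) ≤ Module.rank Qa V := by
    have h := Order.succ_le_of_lt (not_le.1 hlt)
    rwa [Cardinal.succ_natCast, ← Nat.cast_succ] at h
  obtain ⟨w, hw⟩ := Module.le_rank_iff.1 h1
  set v : Fin (e * (e - 1) + 1) → Fin e → ℂ := fun j => (w j : Fin e → ℂ) with hv
  have hvi : LinearIndependent Qa v :=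
    hw.map' V.subtype (LinearMap.ker_eq_bot.2 V.subtype_injective)
  have hvV : ∀ j, v j ∈ V := fun j => (w j).2
  rcases Nat.lt_or_ge e 2 with he | he
  · apply hvi.ne_zero 0
    funext i
    have he1 : e = 1 := by
      have := i.2
      omega
    subst he1
    obtain rfl : i = 0 := Subsingleton.elim _ _
    have h2 := hs _ (hvV 0)
    rw [Fin.sum_univ_one] at h2
    exact (mul_eq_zero.1 h2).resolve_left (ha.ne_zero 0)
  · obtain ⟨K, om, F, η, hom, homi, homF, hspan, hexp, hexp'⟩ := exists_etaF v fun j i => hV _ (hvV j) i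
    have h2 := coreS he om hom homi F homF hspan a ha v hvi
      (fun j i => hV _ (hvV j) i) (fun j => hs _ (hvV j)) η hexp' hexp
      (fun e' he' a' ha' V' hV' hs' => IH e' he' a' ha' V' hV' hs')
    omega

/-- **The sharp hyperplane theorem** (Roy): `e` numbers which are linearly independent over the
algebraic numbers satisfy `∑ a i * v i = 0` only for the `v` in a space of dimension `≤ e (e - 1)` of
vectors of linear forms in logarithms. -/
theorem hps {e : ℕ} (a : Fin e → ℂ) (ha : LinearIndependent Qa a) (V : Submodule Qa (Fin e → ℂ))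
    (hV : ∀ v ∈ V, ∀ i, v i ∈ Lsp) (hs : ∀ v ∈ V, ∑ i, a i * v i = 0) :
    FiniteDimensional Qa V ∧ finrank Qa V ≤ e * (e - 1) := by
  have h := hps_rank a ha V hV hs
  have hfin : FiniteDimensional Qa V :=
    Module.rank_lt_aleph0_iff.1 (h.trans_lt (Cardinal.natCast_lt_aleph0))
  refine ⟨hfin, ?_⟩
  rw [← finrank_eq_rank] at h
  exact_mod_cast h

end MP60829e.HS
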